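import Pool.Agent.CBG.StmtsA

/-!
Averages over the unit square of parameters.
-/

set_option autoImplicit false
set_option maxSynthPendingDepth 3

open scoped Manifold ContDiff Topology
open Set Filter MeasureTheory

namespace Pool.Agent.CBG.H24

theorem prob1 : IsProbabilityMeasure ((volume : Measure ℝ).restrict (Ioc (0 : ℝ) 1)) := by
  constructor
  rw [Measure.restrict_apply_univ, Real.volume_Ioc]
  norm_num

theorem prob : IsProbabilityMeasure mu := by
  haveI := prob1
  unfold mu
  infer_instance

theorem integrable_mu {F : Type} [NormedAddCommGroup F] (f : ℝ × ℝ → F)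
    (hf : Continuous f) : Integrable f mu := by
  have h1 : IntegrableOn f (Icc (0 : ℝ) 1 ×ˢ Icc (0 : ℝ) 1) (volume.prod volume) :=
    hf.continuousOn.integrableOn_compact (isCompact_Icc.prod isCompact_Icc)
  have h2 : IntegrableOn f (Ioc (0 : ℝ) 1 ×ˢ Ioc (0 : ℝ) 1) (volume.prod volume) :=
    h1.mono_set (prod_mono Ioc_subset_Icc_self Ioc_subset_Icc_self)
  unfold mu
  rw [Measure.prod_restrict]
  exact h2

theorem per1 {F : Type} [NormedAddCommGroup F] [NormedSpace ℝ F] (g : ℝ → F)
    (hg : ∀ y, g (y + 1) = g y) (s : ℝ) :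
    ∫ y in Ioc (0 : ℝ) 1, g (y + s) = ∫ y in Ioc (0 : ℝ) 1, g y := by
  rw [← intervalIntegral.integral_of_le zero_le_one, ← intervalIntegral.integral_of_le zero_le_one,
    intervalIntegral.integral_comp_add_right]
  have hp : Function.Periodic g 1 := hg
  have h := hp.intervalIntegral_add_eq (0 + s) 0
  rw [zero_add, zero_add, add_comm s 1] at h
  rw [zero_add]
  exact h

theorem mu0 : Mu0Stmt := by
  refine ⟨prob, fun F _ _ f hf => integrable_mu f hf, ?_, ?_⟩
  · intro F _ _ _ f hf h1 h2 s
    have hs : Continuous fun t => f (t + s) := hf.comp (continuous_id.add continuous_const)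
    have i1 := integrable_mu f hf
    have i2 := integrable_mu _ hs
    unfold mu at i1 i2 ⊢
    rw [integral_prod _ i2, integral_prod _ i1]
    have e1 : ∀ x : ℝ, ∫ y in Ioc (0 : ℝ) 1, f ((x, y) + s)
        = ∫ y in Ioc (0 : ℝ) 1, f (x + s.1, y) := by
      intro x
      refine per1 (fun y => f (x + s.1, y)) (fun y => ?_) s.2
      have h := h2 (x + s.1, y)
      rw [Prod.mk_add_mk, add_zero] at h
      exact h
    simp only [e1]
    refine per1 (fun x => ∫ y in Ioc (0 : ℝ) 1, f (x, y)) (fun x => ?_) s.1
    have e2 : ∀ y : ℝ, f (x + 1, y) = f (x, y) := by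
      intro y
      have h := h1 (x, y)
      rw [Prod.mk_add_mk, add_zero] at h
      exact h
    simp only [e2]
  · intro f hf hpos
    haveI := prob
    rw [integral_pos_iff_support_of_nonneg (fun t => (hpos t).le) (integrable_mu f hf)]
    have h1 : Function.support f = univ := by
      ext t
      simp [(hpos t).ne']
    rw [h1, measure_univ]
    exact one_pos

end Pool.Agent.CBG.H24
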